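import Pool.Agent.U19.AS.Final

/-!
# Antistrong plus strong arc-disjoint spanning subdigraphs: NP-completeness

The problem asks whether a polynomial-time algorithm decides if a digraph has two arc-disjoint spanning
subdigraphs, the first one antistrong and the second one strong. We show that the problem is
`NP`-complete, so that such an algorithm exists if and only if `P = NP`. The reduction is from 3SAT.
The digraph consists of blocks (complete digraphs with four vertices): the main block, a block for every
clause, and blocks `i (x, c, b)`, and of single vertices `o (x, c, b)` with exactly two out-neighbours,
for the variables `x`, the clauses `c` and `b = 0, 1`. For every variable the `4 m` arcs from the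
vertices `o` to the blocks `i` form a cyclic pattern, every block `i` can be entered only from two of
the vertices `o`. Each of the two subdigraphs gets exactly one of the two arcs out of `o`, and the
strong one has to enter every block `i`; therefore there are only two possibilities for a variable. The
only way of leaving the region of a clause is by an arc which is in the strong subdigraph if and only
if a literal of the clause is true.
-/

set_option autoImplicit false

namespace Pool.Agent.Results.MP_c99d13_lc.NPComplete

open Pool.Agent.NPC Pool.Agent.NPC.U19.AS

/-- The problem is in `NP`, it is `NP`-hard under polynomial-time many-one reductions, and a
polynomial-time algorithm which decides it exists if and only if `P = NP`. -/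
theorem result :
    InNPP AntistrongStrong ∧ NPHardP AntistrongStrong ∧
    ((∃ A : List Bool → List Bool, PolyTime A ∧
      ∀ I : Inst, IsInst I → (A (bits I) = [true] ↔ HasPair I)) ↔
    ∀ L : Set (List Bool), InNP L → InP L) :=
  ⟨inNPP_pair, hard_pair, decidable_iff⟩

end Pool.Agent.Results.MP_c99d13_lc.NPComplete
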